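import Pool.Agent.H70.Brk

namespace Pool.Agent.Results.MP_c1a8be_al.Counterexample

open Pool.Agent.H70.Brk

theorem result (X : Type) [DecidableEq X] [Fintype X] [Nontrivial X] (N : Set (FreeGroup X))
    (hN : ∀ w, NSO w → (w ∈ N ↔ w⁻¹ ∉ N)) (_hN' : ∀ w ∈ N, NSO w) :
    ∃ α : FreeGroup X → ℝ, (∀ w, α w⁻¹ = - α w) ∧ (∀ w, ¬ NSO w → α w = 0) ∧
      (∀ g, series N α hbar g = 0) ∧ IsQM (series N α hbar) ∧ ¬ IsQM (series N α h) := by
  obtain ⟨b, a, hb⟩ := exists_pair_ne X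
  refine ⟨α a, α_inv a, fun w hw => by_contra fun h0 => hw ?_, (main a hb hN).1,
    ⟨0, fun g g' => by simp [(main a hb hN).1]⟩, (main a hb hN).2⟩
  obtain ⟨n, ε, s, hs, rfl | rfl⟩ := α_ne a h0
  exacts [(nso a hs).1, (nso a hs).2]

end Pool.Agent.Results.MP_c1a8be_al.Counterexample
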